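import Pool.Agent.Q17.ML2.Stm

set_option autoImplicit false

namespace Pool.Agent.Q186.CA

open Pool.Agent.Q17.ML2

section

variable {K Ω : Type} [Field K] [Field Ω] [Algebra K Ω]
variable {L : IntermediateField K Ω}

lemma mem_fix (φ : L →ₐ[K] Ω) (σ : Ω ≃ₐ[K] Ω) :
    σ ∈ φ.fieldRange.fixingSubgroup ↔ σ.toAlgHom.comp φ = φ := by
  rw [IntermediateField.mem_fixingSubgroup_iff]
  constructor
  · intro h
    ext x
    exact h (φ x) ⟨x, rfl⟩
  · rintro h _ ⟨x, rfl⟩
    exact DFunLike.congr_fun h x

lemma range_eq_iff [IsGalois K Ω] (φ ψ : L →ₐ[K] Ω) : φ.fieldRange = ψ.fieldRange ↔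
    ∀ σ : Ω ≃ₐ[K] Ω, σ.toAlgHom.comp φ = φ ↔ σ.toAlgHom.comp ψ = ψ := by
  constructor
  · intro h σ
    rw [← mem_fix, ← mem_fix, h]
  · intro h
    have h1 : φ.fieldRange.fixingSubgroup = ψ.fieldRange.fixingSubgroup := by
      ext σ
      rw [mem_fix, mem_fix]
      exact h σ
    rw [← InfiniteGalois.fixedField_fixingSubgroup φ.fieldRange, h1,
      InfiniteGalois.fixedField_fixingSubgroup]

end

/-- points of a block are fixed by the same elements of the wreath product -/
lemma fix_iff {H : Type} [Group H] {W : Subgroup H} (a c : (H ⧸ W) × Bool) :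
    (∀ π : Equiv.Perm ((H ⧸ W) × Bool), π ∈ WrS H W → (π a = a ↔ π c = c)) ↔ a.1 = c.1 := by
  classical
  constructor
  · intro h
    by_contra hne
    have hm : Equiv.swap (c.1, false) (c.1, true) ∈ WrS H W := by
      refine ⟨1, fun x => ?_⟩
      rw [one_smul, Equiv.swap_apply_def]
      split_ifs with h1 h2
      · rw [h1]
      · rw [h2]
      · rfl
    have h1 := h _ hm
    have h2 : Equiv.swap (c.1, false) (c.1, true) a = a := by
      apply Equiv.swap_apply_of_ne_of_ne
      · intro h3; exact hne (by rw [h3])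
      · intro h3; exact hne (by rw [h3])
    have h3 := h1.1 h2
    obtain ⟨c1, c2⟩ := c
    cases c2 <;> simp at h3
  · intro h
    have key : ∀ a c : (H ⧸ W) × Bool, a.1 = c.1 → ∀ π : Equiv.Perm ((H ⧸ W) × Bool), π ∈ WrS H W →
        π a = a → π c = c := by
      rintro ⟨a1, a2⟩ ⟨c1, c2⟩ h π ⟨g, hg⟩ hπ
      simp only at h
      subst h
      by_cases hb : a2 = c2
      · subst hb; exact hπ
      · have h1 : g • a1 = a1 := by
          have := hg (a1, a2)
          rw [hπ] at this
          exact this.symm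
        have h2 : (π (a1, c2)).1 = a1 := by rw [hg]; exact h1
        have h3 : (π (a1, c2)).2 ≠ a2 := by
          intro h4
          have h5 : π (a1, c2) = π (a1, a2) := by
            rw [hπ]
            exact Prod.ext h2 h4
          have h6 := π.injective h5
          exact hb (congrArg Prod.snd h6).symm
        refine Prod.ext h2 ?_
        revert h3 hb
        cases (π (a1, c2)).2 <;> cases a2 <;> cases c2 <;> simp
    intro π hπ
    exact ⟨key a c h π hπ, key c a h.symm π hπ⟩

theorem wrConj : WrConjS := by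
  intro K Ω _ _ _ _ _ H _ _ W L hL hW
  obtain ⟨e, he⟩ := hW
  have : Algebra.IsAlgebraic K Ω := IsAlgClosure.isAlgebraic
  have : Normal K Ω := IsAlgClosure.normal K Ω
  have : IsGalois K Ω := ⟨⟩
  -- equality of ranges means equality of blocks
  have key : ∀ φ ψ : L →ₐ[K] Ω, φ.fieldRange = ψ.fieldRange ↔ (e φ).1 = (e ψ).1 := by
    intro φ ψ
    rw [range_eq_iff, ← fix_iff]
    constructor
    · intro h π hπ
      obtain ⟨σ, hσ⟩ := (he π).1 hπ
      have := h σ
      rw [← hσ, ← hσ, e.injective.eq_iff, e.injective.eq_iff]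
      exact this
    · intro h σ
      -- the permutation given by `σ`
      let p : (L →ₐ[K] Ω) ≃ (L →ₐ[K] Ω) :=
        { toFun := fun χ => σ.toAlgHom.comp χ
          invFun := fun χ => σ.symm.toAlgHom.comp χ
          left_inv := fun χ => by ext x; simp
          right_inv := fun χ => by ext x; simp }
      let π : Equiv.Perm ((H ⧸ W) × Bool) := (e.symm.trans p).trans e
      have hp : ∀ χ : L →ₐ[K] Ω, e (σ.toAlgHom.comp χ) = π (e χ) := by
        intro χ
        simp [π, p]
      have hπ : π ∈ WrS H W := (he π).2 ⟨σ, hp⟩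
      have := h π hπ
      rw [← hp, ← hp, e.injective.eq_iff, e.injective.eq_iff] at this
      exact this
  let f : H ⧸ W → IntermediateField K Ω := fun h => (e.symm (h, false)).fieldRange
  have hf : Function.Injective f := by
    intro a b hab
    have := (key _ _).1 hab
    simpa using this
  have hr : {L' : IntermediateField K Ω | Nonempty (L ≃ₐ[K] L')} = Set.range f := by
    ext L'
    constructor
    · rintro ⟨g⟩
      refine ⟨(e (L'.val.comp g.toAlgHom)).1, ?_⟩
      have h1 : (L'.val.comp g.toAlgHom).fieldRange = L' := by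
        ext x
        constructor
        · rintro ⟨y, rfl⟩
          exact (g y).2
        · intro hx
          exact ⟨g.symm ⟨x, hx⟩, by simp⟩
      have h2 : f (e (L'.val.comp g.toAlgHom)).1 = (L'.val.comp g.toAlgHom).fieldRange := by
        rw [key]
        simp
      rw [h2, h1]
    · rintro ⟨h, rfl⟩
      exact ⟨AlgEquiv.ofInjectiveField (e.symm (h, false))⟩
  rw [hr, Set.ncard_range_of_injective hf]
  rfl

end Pool.Agent.Q186.CA

namespace Pool.Agent.Q17.ML2

theorem t_WC : S_WC := Pool.Agent.Q186.CA.wrConj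

end Pool.Agent.Q17.ML2
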