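import Pool.Agent.Q186.CA.Hol

/-!
# Near lines
-/

set_option autoImplicit false

open Matrix

namespace Pool.Agent.Q186.CA

variable {k : ℕ}

theorem dot_conj (v w : Fin k → ℂ) : star (star v ⬝ᵥ w) = star w ⬝ᵥ v := by
  rw [star_dotProduct, star_star, dotProduct_comm]

theorem dot_cs (v w : Fin k → ℂ) :
    ‖star v ⬝ᵥ w‖ ^ 2 ≤ ‖star v ⬝ᵥ v‖ * ‖star w ⬝ᵥ w‖ := by
  have h1 : ∀ a b : Fin k → ℂ, star a ⬝ᵥ b =
      inner ℂ (WithLp.toLp 2 a : EuclideanSpace ℂ (Fin k)) (WithLp.toLp 2 b) := fun a b => by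
    rw [EuclideanSpace.inner_eq_star_dotProduct, dotProduct_comm]
  rw [h1, h1, h1]
  have h2 := norm_inner_le_norm (𝕜 := ℂ) (WithLp.toLp 2 v : EuclideanSpace ℂ (Fin k))
    (WithLp.toLp 2 w)
  rw [inner_self_eq_norm_sq_to_K, inner_self_eq_norm_sq_to_K]
  rw [norm_pow, norm_pow]
  simp only [RCLike.norm_ofReal, abs_norm]
  nlinarith [norm_nonneg (inner ℂ (WithLp.toLp 2 v : EuclideanSpace ℂ (Fin k))
    (WithLp.toLp 2 w)), norm_nonneg (WithLp.toLp 2 v : EuclideanSpace ℂ (Fin k)),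
    norm_nonneg (WithLp.toLp 2 w : EuclideanSpace ℂ (Fin k)), mul_nonneg
      (norm_nonneg (WithLp.toLp 2 v : EuclideanSpace ℂ (Fin k)))
      (norm_nonneg (WithLp.toLp 2 w : EuclideanSpace ℂ (Fin k)))]

theorem trace_two {v w : Fin k → ℂ} :
    (vecMulVec v (star v) * vecMulVec w (star w)).trace = ((‖star v ⬝ᵥ w‖ ^ 2 : ℝ) : ℂ) := by
  rw [vecMulVec_mul_vecMulVec, trace_vecMulVec, dotProduct_comm, smul_dotProduct, smul_eq_mul,
    ← dot_conj v w]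
  rw [Complex.star_def, Complex.mul_conj, Complex.normSq_eq_norm_sq]

theorem corner {v w e : Fin k → ℂ} (hv : star v ⬝ᵥ v = 1) (hw : star w ⬝ᵥ w = 1)
    (he : star e ⬝ᵥ e = 1) (h1 : 1 / 2 < ‖star v ⬝ᵥ e‖ ^ 2) (h2 : 1 / 2 < ‖star e ⬝ᵥ w‖ ^ 2) :
    ‖star v ⬝ᵥ w - (star v ⬝ᵥ e) * (star e ⬝ᵥ w)‖ < ‖(star v ⬝ᵥ e) * (star e ⬝ᵥ w)‖ := by
  have hexp : ∀ a b : Fin k → ℂ, star (a - (star e ⬝ᵥ a) • e) ⬝ᵥ (b - (star e ⬝ᵥ b) • e) =
      star a ⬝ᵥ b - (star a ⬝ᵥ e) * (star e ⬝ᵥ b) := by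
    intro a b
    rw [star_sub, star_smul, sub_dotProduct, dotProduct_sub, dotProduct_sub, smul_dotProduct,
      smul_dotProduct, dotProduct_smul, dotProduct_smul, he, dot_conj]
    simp only [smul_eq_mul]
    ring
  have hself : ∀ a : Fin k → ℂ, star a ⬝ᵥ a = 1 →
      star (a - (star e ⬝ᵥ a) • e) ⬝ᵥ (a - (star e ⬝ᵥ a) • e) =
        ((1 - ‖star e ⬝ᵥ a‖ ^ 2 : ℝ) : ℂ) := by
    intro a ha
    rw [hexp, ha, ← dot_conj e a, mul_comm, Complex.star_def, Complex.mul_conj,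
      Complex.normSq_eq_norm_sq]
    push_cast
    ring
  have hsym : ‖star e ⬝ᵥ v‖ = ‖star v ⬝ᵥ e‖ := by
    rw [← dot_conj v e, norm_star]
  have hcs := dot_cs (v - (star e ⬝ᵥ v) • e) (w - (star e ⬝ᵥ w) • e)
  have hle : ∀ a : Fin k → ℂ, star a ⬝ᵥ a = 1 → 0 ≤ 1 - ‖star e ⬝ᵥ a‖ ^ 2 := by
    intro a ha
    have := dot_cs e a
    rw [he, ha, norm_one, mul_one] at this
    linarith
  rw [hexp, hself v hv, hself w hw, Complex.norm_real, Complex.norm_real,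
    Real.norm_of_nonneg (hle v hv), Real.norm_of_nonneg (hle w hw), hsym] at hcs
  refine lt_of_pow_lt_pow_left₀ 2 (norm_nonneg _) ?_
  rw [norm_mul, mul_pow]
  have ha := hle v hv
  have hb := hle w hw
  rw [hsym] at ha
  nlinarith

/-- straight homotopies near a nonzero number -/
theorem line_ne_zero {z₀ z₁ : ℂ} (h : ‖z₀ - z₁‖ < ‖z₁‖) {s : ℝ} (h0 : 0 ≤ s) (h1 : s ≤ 1) :
    (1 - s : ℂ) * z₀ + s * z₁ ≠ 0 := by
  intro hz
  have e : z₁ = -((1 - s : ℂ) * (z₀ - z₁)) := by linear_combination hz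
  have h2 : ‖z₁‖ = (1 - s) * ‖z₀ - z₁‖ := by
    conv_lhs => rw [e]
    rw [norm_neg, norm_mul]
    have : (1 - s : ℂ) = ((1 - s : ℝ) : ℂ) := by push_cast; ring
    rw [this, Complex.norm_real, Real.norm_of_nonneg (by linarith)]
  nlinarith [norm_nonneg (z₀ - z₁)]

end Pool.Agent.Q186.CA
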