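import Pool.Agent.Q186.CA.Main

/-!
# The main theorem on circle actions
-/

set_option autoImplicit false

open Set Topology Matrix

namespace Pool.Agent.Q186.CA

open Pool.Agent.Y489.GE

/-- A circle acting by `lam`-Lipschitz maps, two fixed points and a line bundle with an action of
the circle whose weights at the two points are different: there is a periodic geodesic of length
at most `(1 + lam)` times the distance of the two points. -/
theorem main (X : Type) [MetricSpace X] [CompactSpace X] {r : ℝ} (hr : 0 < r) (hX : GeodSpace X)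
    (hU : UniqGeod X r) [MulAction Circle X] [ContinuousSMul Circle X] {lam : ℝ}
    (hLip : ∀ (θ : Circle) (x y : X), dist (θ • x) (θ • y) ≤ lam * dist x y)
    {k : ℕ} (P : X → Matrix (Fin k) (Fin k) ℂ) (hPc : Continuous P) (hPl : ∀ x, IsLine (P x))
    (W W' : Circle → Matrix (Fin k) (Fin k) ℂ) (hW : ∀ θ, W' θ * W θ = 1)
    (hWP : ∀ θ x, P (θ • x) = W θ * P x * W' θ)
    (x₀ x₁ : X) (hx₀ : ∀ θ : Circle, θ • x₀ = x₀) (hx₁ : ∀ θ : Circle, θ • x₁ = x₁)
    (m₀ m₁ : ℤ) (hm₀ : ∀ θ : Circle, W θ * P x₀ = ((θ : ℂ) ^ m₀) • P x₀)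
    (hm₁ : ∀ θ : Circle, W θ * P x₁ = ((θ : ℂ) ^ m₁) • P x₁) (hne : m₀ ≠ m₁) :
    ClosedGeod X ((1 + lam) * dist x₀ x₁) := by
  by_contra hno
  obtain ⟨m, hm⟩ := Pool.Agent.Y467.GE.t_MG X r hr hX hU
  have hz : ∀ (θ : Circle) (n : ℤ), (θ : ℂ) ^ n ≠ 0 := fun θ n =>
    zpow_ne_zero _ (Circle.coe_ne_zero _)
  have hpow : ∀ θ : Circle, (θ : ℂ) ^ m₁ * ((θ : ℂ) ^ m₀)⁻¹ = (θ : ℂ) ^ (m₁ - m₀) := fun θ => by
    rw [zpow_sub₀ (Circle.coe_ne_zero _), div_eq_mul_inv]
  -- the two points are different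
  have hd : 0 < dist x₀ x₁ := by
    rcases (dist_nonneg (x := x₀) (y := x₁)).lt_or_eq with h | h
    · exact h
    · exfalso
      have h01 : x₀ = x₁ := dist_eq_zero.1 h.symm
      subst h01
      apply hne
      have h2 : ∀ θ : Circle, (θ : ℂ) ^ (m₁ - m₀) = 1 := by
        intro θ
        have h3 : ((θ : ℂ) ^ m₀) • P x₀ = ((θ : ℂ) ^ m₁) • P x₀ := (hm₀ θ).symm.trans (hm₁ θ)
        have h4 : ((θ : ℂ) ^ m₀ - (θ : ℂ) ^ m₁) • P x₀ = 0 := by
          rw [sub_smul, h3, sub_self]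
        have h5 := (smul_eq_zero.1 h4).resolve_right (hPl x₀).ne_zero
        rw [← hpow, ← sub_eq_zero.1 h5, mul_inv_cancel₀ (hz _ _)]
      have h6 := exponent_zero (fun _ _ => (1 : ℂ)) continuous_const (fun _ _ => one_ne_zero)
        0 1 1 1 (m₁ - m₀) (fun θ => by rw [h2, mul_one]) (fun _ => rfl)
      omega
  set d := dist x₀ x₁ with hdd
  have hlam1 : 1 ≤ lam := by
    have := hLip 1 x₀ x₁
    rw [one_smul, one_smul, ← hdd] at this
    nlinarith
  have hlam : 0 < lam := by linarith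
  -- near points have near lines
  obtain ⟨η, hη0, hη⟩ : ∃ η : ℝ, 0 < η ∧ ∀ x y, dist x y < η →
      (1 / 2 : ℝ) < ‖(P x * P y).trace‖ := by
    have hF : Continuous fun z : X × X => (P z.1 * P z.2).trace :=
      ((hPc.comp continuous_fst).matrix_mul (hPc.comp continuous_snd)).matrix_trace
    have hUC := CompactSpace.uniformContinuous_of_continuous hF
    obtain ⟨η, hη0, hη⟩ := Metric.uniformContinuous_iff.1 hUC (1 / 2) (by norm_num)
    refine ⟨η, hη0, fun x y hxy => ?_⟩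
    have h1 := hη (a := (x, x)) (b := (x, y)) (by
      rw [Prod.dist_eq]
      simp only [dist_self]
      exact max_lt hη0 hxy)
    simp only [(hPl x).idem, (hPl x).trace_eq] at h1
    rw [dist_eq_norm] at h1
    have h2 : ‖(1 : ℂ)‖ ≤ ‖1 - (P x * P y).trace‖ + ‖(P x * P y).trace‖ := by
      have := norm_add_le (1 - (P x * P y).trace) (P x * P y).trace
      rwa [sub_add_cancel] at this
    rw [norm_one] at h2
    linarith
  -- the number of vertices
  obtain ⟨N, hN⟩ := exists_nat_gt ((1 + lam) * d / min η (r / 2))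
  have hmin : 0 < min η (r / 2) := lt_min hη0 (by linarith)
  have hN0 : (0 : ℝ) < N := lt_trans (by positivity) hN
  have hN1 : 0 < N := by exact_mod_cast hN0
  have hNd : (1 + lam) * d / N < min η (r / 2) := by
    rw [div_lt_iff₀ hmin] at hN
    rw [div_lt_iff₀ hN0]
    linarith
  have : NeZero N := ⟨by omega⟩
  obtain ⟨c, hc0, hc1, hc⟩ := hX x₀ x₁
  have hPol : PolC X N ((1 + lam) * d / N) := by
    refine polC_of_no hm hno N (by positivity) (hNd.le.trans (min_le_right _ _)) ?_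
    rw [mul_div_cancel₀ _ hN0.ne']
  obtain ⟨e, H, hH1, hH2, hH3, hH4, -⟩ := hPol
  have hmem : ∀ θ, loop c lam N θ ∈ Pol X N ((1 + lam) * d / N) :=
    loop_mem hlam hN1 hc0 hc1 hx₀ hx₁ hLip hc hd.le
  have hδ : ∀ x y, dist x y ≤ (1 + lam) * d / N → (1 / 2 : ℝ) < ‖(P x * P y).trace‖ :=
    fun x y h => hη x y (h.trans_lt (hNd.trans_le (min_le_left _ _)))
  have hδ' : ∀ x y, dist x y ≤ (1 + lam) * d / N → (P x * P y).trace ≠ 0 := fun x y h h0 => by
    have := hδ x y h
    rw [h0, norm_zero] at this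
    linarith
  -- the last vertex on the first half
  set i := ⌊(N : ℝ) / (1 + lam)⌋₊ with hi
  have hi1 : (i : ℝ) * (1 + lam) / N ≤ 1 := by
    have := Nat.floor_le (a := (N : ℝ) / (1 + lam)) (by positivity)
    rw [← hi, le_div_iff₀ (by linarith)] at this
    rw [div_le_one hN0]
    exact this
  have hi2 : 1 < ((i : ℝ) + 1) * (1 + lam) / N := by
    have := Nat.lt_floor_add_one ((N : ℝ) / (1 + lam))
    rw [← hi, div_lt_iff₀ (by linarith)] at this
    rw [one_lt_div hN0]
    exact this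
  have hiN : i + 1 ≤ N := by
    have h1 : (i : ℝ) < N := by
      rw [div_le_one hN0] at hi1
      nlinarith
    exact_mod_cast h1
  obtain ⟨J, hJ⟩ := Nat.exists_eq_add_of_le hiN
  -- the points
  set g : ℕ → X := fun n => c ((n : ℝ) * (1 + lam) / N) with hg
  set h : ℕ → X := fun j => c ((1 + lam - ((i + 1 + j : ℕ) : ℝ) * (1 + lam) / N) / lam) with hh
  have hg0 : g 0 = x₀ := by
    simp only [hg, Nat.cast_zero, zero_mul, zero_div, hc0]
  have hhJ : h J = x₀ := by
    simp only [hh]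
    rw [← hJ, mul_comm, mul_div_assoc, div_self hN0.ne', mul_one, sub_self, zero_div, hc0]
  have hfg : ∀ θ, ∀ n ≤ i, lp c lam θ ((n : ℝ) * (1 + lam) / N) = g n := by
    intro θ n hn
    refine if_pos (le_trans ?_ hi1)
    have : (n : ℝ) ≤ i := by exact_mod_cast hn
    gcongr
  have hfh : ∀ θ, ∀ j : ℕ, lp c lam θ (((i + 1 + j : ℕ) : ℝ) * (1 + lam) / N) = θ • h j := by
    intro θ j
    refine if_neg (not_le.2 (lt_of_lt_of_le hi2 ?_))
    have : (i : ℝ) + 1 ≤ ((i + 1 + j : ℕ) : ℝ) := by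
      push_cast
      linarith [(Nat.cast_nonneg j : (0 : ℝ) ≤ j)]
    gcongr
  have hstep : (1 + lam) * d / N = (1 + lam) / N * d := by ring
  have hnear1 : dist (g i) x₁ ≤ (1 + lam) * d / N := by
    rw [← hfg 1 i le_rfl, ← lp_one (lam := lam) hc1 (1 : Circle)]
    refine (lp_dist hlam hc1 hx₁ hLip hc hd.le 1 (by positivity) hi1 (by linarith)).trans ?_
    rw [hstep]
    refine mul_le_mul_of_nonneg_right ?_ hd.le
    have : ((i : ℝ) + 1) * (1 + lam) / N = (i : ℝ) * (1 + lam) / N + (1 + lam) / N := by ring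
    linarith
  have hnear2 : ∀ θ : Circle, dist x₁ (θ • h 0) ≤ (1 + lam) * d / N := by
    intro θ
    rw [← hfh θ 0, ← lp_one (lam := lam) hc1 θ]
    have h3 : ((i + 1 + 0 : ℕ) : ℝ) * (1 + lam) / N = (i : ℝ) * (1 + lam) / N + (1 + lam) / N := by
      push_cast
      ring
    have h4 : ((i + 1 : ℕ) : ℝ) ≤ N := by exact_mod_cast hiN
    refine (lp_dist hlam hc1 hx₁ hLip hc hd.le θ zero_le_one ?_ ?_).trans ?_
    · rw [h3]
      have : ((i : ℝ) + 1) * (1 + lam) / N = (i : ℝ) * (1 + lam) / N + (1 + lam) / N := by ring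
      linarith
    · rw [div_le_iff₀ hN0]
      push_cast at h4 ⊢
      nlinarith
    · rw [hstep, h3]
      refine mul_le_mul_of_nonneg_right ?_ hd.le
      linarith
  set ρ : ℂ := (pr (fun n => P (g n)) i * (P x₁ * pr (fun n => P (h n)) J)).trace with hρ
  have hest : ∀ θ : Circle, ‖hol P N (loop c lam N θ) - ρ * (θ : ℂ) ^ (m₁ - m₀)‖ <
      ‖ρ * (θ : ℂ) ^ (m₁ - m₀)‖ := by
    intro θ
    have h1 : pr (fun n => P (loop c lam N θ (n : ZMod N))) N =
        pr (fun n => P (lp c lam θ ((n : ℝ) * (1 + lam) / N))) N :=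
      pr_congr fun n hn => by
        rw [loop_cast hlam hN1 hc0 hx₀ θ hn]
    have hne' : (pr (fun n => P (lp c lam θ ((n : ℝ) * (1 + lam) / N))) (i + 1 + J)).trace ≠ 0 := by
      rw [← hJ, ← h1]
      exact hol_ne_zero hPl hδ' (hmem θ)
    have h2 := corner_est hPl (f := fun n => lp c lam θ ((n : ℝ) * (1 + lam) / N)) (g := g)
      (h := h) (hW θ) (hWP θ) (i := i) (J := J) (hfg θ) (fun j _ => hfh θ j) hg0 hhJ (hx₀ θ) (hx₁ θ)
      (hz θ m₀) (hm₁ θ) (hm₀ θ) (hδ _ _ hnear1) (hδ _ _ (hnear2 θ)) hne'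
    rw [← hρ, hpow, mul_comm _ ρ, ← hJ, ← h1] at h2
    exact h2
  -- the homotopy
  have hzc : Continuous fun θ : Circle => ρ * (θ : ℂ) ^ (m₁ - m₀) :=
    continuous_const.mul (continuous_subtype_val.zpow₀ _ fun θ => Or.inl (Circle.coe_ne_zero θ))
  have hlc : Continuous fun θ : Circle => hol P N (loop c lam N θ) :=
    (continuous_hol hPc N).comp continuous_loop
  set t : ℝ → ℝ := fun s => max 0 (min (-s) 1) with ht
  have htc : Continuous t := by fun_prop
  have ht0 : ∀ s, 0 ≤ t s := fun s => le_max_left _ _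
  have ht1 : ∀ s, t s ≤ 1 := fun s => max_le zero_le_one (min_le_right _ _)
  have hfin := exponent_zero (fun θ s => if s ≤ 0 then
      (1 - (t s : ℝ) : ℂ) * hol P N (loop c lam N θ) + (t s : ℝ) * (ρ * (θ : ℂ) ^ (m₁ - m₀))
    else hol P N (H ⟨loop c lam N θ, hmem θ⟩ s)) ?_ ?_ (-1) 1 ρ 1 (m₁ - m₀) ?_ ?_
  · omega
  · refine Continuous.if_le ?_ ?_ continuous_snd continuous_const ?_
    · have h1 : Continuous fun z : Circle × ℝ => ((t z.2 : ℝ) : ℂ) :=
        Complex.continuous_ofReal.comp (htc.comp continuous_snd)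
      exact ((continuous_const.sub h1).mul (hlc.comp continuous_fst)).add
        (h1.mul (hzc.comp continuous_fst))
    · refine (continuous_hol hPc _).comp ?_
      exact hH1.comp (((continuous_loop (c := c) (lam := lam) (N := N)).subtype_mk hmem |>.comp
        continuous_fst).prodMk continuous_snd)
    · intro z hz0
      rw [hz0, hH3 _ _ le_rfl]
      have : t 0 = 0 := by simp [ht]
      rw [this]
      simp
  · intro θ s
    split_ifs
    · exact line_ne_zero (hest θ) (ht0 s) (ht1 s)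
    · exact hol_ne_zero hPl hδ' (hH2 _ _)
  · intro θ
    have : t (-1) = 1 := by simp [ht]
    rw [if_pos (by norm_num), this]
    simp
  · intro θ
    rw [if_neg (by norm_num), hH4 _ _ le_rfl]
    exact hol_const hPl _ _

end Pool.Agent.Q186.CA
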