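import Mathlib

/-!
# Products of projections onto lines
-/

set_option autoImplicit false

open Matrix

namespace Pool.Agent.Q186.CA

variable {k : ℕ}

/-- the matrix is the orthogonal projection of `ℂ^k` onto a line -/
def IsLine (P : Matrix (Fin k) (Fin k) ℂ) : Prop :=
  ∃ v : Fin k → ℂ, star v ⬝ᵥ v = 1 ∧ P = vecMulVec v (star v)

/-- `f 0 * f 1 * ... * f n` -/
def pr (f : ℕ → Matrix (Fin k) (Fin k) ℂ) : ℕ → Matrix (Fin k) (Fin k) ℂ
  | 0 => f 0
  | n + 1 => pr f n * f (n + 1)

theorem IsLine.herm {P : Matrix (Fin k) (Fin k) ℂ} (h : IsLine P) : Pᴴ = P := by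
  obtain ⟨v, -, rfl⟩ := h
  rw [conjTranspose_vecMulVec, star_star]

theorem IsLine.idem {P : Matrix (Fin k) (Fin k) ℂ} (h : IsLine P) : P * P = P := by
  obtain ⟨v, hv, rfl⟩ := h
  rw [vecMulVec_mul_vecMulVec, hv, one_smul]

theorem IsLine.trace_eq {P : Matrix (Fin k) (Fin k) ℂ} (h : IsLine P) : P.trace = 1 := by
  obtain ⟨v, hv, rfl⟩ := h
  rw [trace_vecMulVec, dotProduct_comm, hv]

theorem IsLine.ne_zero {P : Matrix (Fin k) (Fin k) ℂ} (h : IsLine P) : P ≠ 0 := by
  intro h0
  have := h.trace_eq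
  rw [h0, trace_zero] at this
  exact zero_ne_one this

theorem pr_absorb {f : ℕ → Matrix (Fin k) (Fin k) ℂ} (hf : ∀ i, f i * f i = f i) (n : ℕ) :
    pr f n * f n = pr f n := by
  cases n with
  | zero => exact hf 0
  | succ n => rw [pr, Matrix.mul_assoc, hf]

theorem pr_congr {f g : ℕ → Matrix (Fin k) (Fin k) ℂ} {n : ℕ} (h : ∀ i ≤ n, f i = g i) :
    pr f n = pr g n := by
  induction n with
  | zero => exact h 0 le_rfl
  | succ n ih => rw [pr, pr, ih (fun i hi => h i (by omega)), h _ le_rfl]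

theorem pr_const {P : Matrix (Fin k) (Fin k) ℂ} (h : P * P = P) (n : ℕ) : pr (fun _ => P) n = P := by
  induction n with
  | zero => rfl
  | succ n ih => rw [pr, ih, h]

/-- the product of projections onto lines -/
theorem pr_line {f : ℕ → Matrix (Fin k) (Fin k) ℂ} {v : ℕ → Fin k → ℂ}
    (h : ∀ i, f i = vecMulVec (v i) (star (v i))) (n : ℕ) :
    pr f n = (∏ i ∈ Finset.range n, (star (v i) ⬝ᵥ v (i + 1))) • vecMulVec (v 0) (star (v n)) := by
  induction n with
  | zero => simp [pr, h]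
  | succ n ih =>
    rw [pr, ih, h (n + 1), Matrix.smul_mul, vecMulVec_mul_vecMulVec, Finset.prod_range_succ,
      vecMulVec_smul, smul_smul]

theorem trace_pr_line {f : ℕ → Matrix (Fin k) (Fin k) ℂ} {v : ℕ → Fin k → ℂ}
    (h : ∀ i, f i = vecMulVec (v i) (star (v i))) (n : ℕ) (hn : v n = v 0)
    (h0 : star (v 0) ⬝ᵥ v 0 = 1) :
    (pr f n).trace = ∏ i ∈ Finset.range n, (star (v i) ⬝ᵥ v (i + 1)) := by
  rw [pr_line h, trace_smul, trace_vecMulVec, hn, dotProduct_comm, h0, smul_eq_mul, mul_one]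

/-- near lines -/
theorem dot_ne_zero {v w : Fin k → ℂ}
    (h : (vecMulVec v (star v) * vecMulVec w (star w)).trace ≠ 0) : star v ⬝ᵥ w ≠ 0 := by
  intro h0
  apply h
  rw [vecMulVec_mul_vecMulVec, h0, zero_smul]
  simp

/-- a product whose second part is conjugated by `W` -/
theorem pr_split {f h : ℕ → Matrix (Fin k) (Fin k) ℂ} {W W' : Matrix (Fin k) (Fin k) ℂ}
    (hW : W' * W = 1) {i J : ℕ} (hf : ∀ j ≤ J, f (i + 1 + j) = W * h j * W') :
    pr f (i + 1 + J) = pr f i * (W * pr h J * W') := by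
  have key : ∀ j ≤ J, pr f (i + 1 + j) = pr f i * (W * pr h j * W') := by
    intro j
    induction j with
    | zero =>
      intro h0
      show pr f i * f (i + 1) = pr f i * (W * h 0 * W')
      rw [← hf 0 h0]
    | succ j ih =>
      intro hj
      have e1 : pr f (i + 1 + (j + 1)) = pr f (i + 1 + j) * f (i + 1 + (j + 1)) := rfl
      rw [e1, ih (by omega), hf (j + 1) hj, pr]
      calc pr f i * (W * pr h j * W') * (W * h (j + 1) * W')
          = pr f i * (W * pr h j * (W' * W) * (h (j + 1) * W')) := by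
            simp only [Matrix.mul_assoc]
        _ = _ := by
            rw [hW, Matrix.mul_one]
            simp only [Matrix.mul_assoc]
  exact key J le_rfl

theorem trace_sandwich {u v w x : Fin k → ℂ} (Z : Matrix (Fin k) (Fin k) ℂ) (α γ : ℂ) :
    ((α • vecMulVec u (star v)) * (Z * (γ • vecMulVec w (star x)))).trace =
      α * γ * (star v ⬝ᵥ (Z *ᵥ w)) * (star x ⬝ᵥ u) := by
  rw [Matrix.mul_smul, Matrix.mul_smul, Matrix.smul_mul, trace_smul, trace_smul,
    mul_vecMulVec, vecMulVec_mul_vecMulVec, vecMulVec_smul, trace_smul, trace_vecMulVec,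
    dotProduct_comm u]
  simp only [smul_eq_mul]
  ring

/-- continuity of the products -/
theorem continuous_pr {Z : Type} [TopologicalSpace Z] {f : Z → ℕ → Matrix (Fin k) (Fin k) ℂ}
    (hf : ∀ i, Continuous fun z => f z i) (n : ℕ) : Continuous fun z => pr (f z) n := by
  induction n with
  | zero => exact hf 0
  | succ n ih => exact ih.matrix_mul (hf (n + 1))

end Pool.Agent.Q186.CA
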