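import Mathlib

/-!
# The power maps of the circle are not null-homotopic in the punctured plane
-/

set_option autoImplicit false

open Set Topology

namespace Pool.Agent.Q186.CA

/-- A homotopy in the punctured plane from `ρ θ ^ m` to a constant exists only for `m = 0`. -/
theorem exponent_zero (K : Circle → ℝ → ℂ) (hK : Continuous fun z : Circle × ℝ => K z.1 z.2)
    (hne : ∀ θ s, K θ s ≠ 0) (a b : ℝ) (ρ c : ℂ) (m : ℤ) (h0 : ∀ θ, K θ a = ρ * (θ : ℂ) ^ m)
    (h1 : ∀ θ, K θ b = c) : m = 0 := by
  have hF : Continuous fun z : ℝ × ℝ => (⟨K (Circle.exp z.1) z.2, hne _ _⟩ : {z : ℂ // z ≠ 0}) := by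
    refine Continuous.subtype_mk ?_ _
    exact hK.comp ((Circle.exp.continuous.comp continuous_fst).prodMk continuous_snd)
  obtain ⟨e0, he0⟩ : ∃ e : ℂ, Complex.exp e = K (Circle.exp 0) 0 :=
    ⟨Complex.log _, Complex.exp_log (hne _ _)⟩
  obtain ⟨L, ⟨-, hL⟩, -⟩ := Complex.isCoveringMap_exp.existsUnique_continuousMap_lifts
    (⟨_, hF⟩ : C(ℝ × ℝ, {z : ℂ // z ≠ 0})) (0, 0) e0 (Subtype.ext he0)
  have hexp : ∀ t s : ℝ, Complex.exp (L (t, s)) = K (Circle.exp t) s := fun t s =>
    congrArg Subtype.val (congrFun hL (t, s))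
  -- the increment over a period is constant
  have key : ∀ (g : ℝ → ℂ), Continuous g → (∀ t, Complex.exp (g t) = 1) → ∀ a b, g a = g b := by
    intro g hg hg1 a b
    have hre : ∀ t, (g t).re = 0 := by
      intro t
      have := congrArg (fun z : ℂ => ‖z‖) (hg1 t)
      simp only [Complex.norm_exp, norm_one, Real.exp_eq_one_iff] at this
      exact this
    have hint : ∀ t, ∃ n : ℤ, (g t).im / (2 * Real.pi) = n := by
      intro t
      obtain ⟨n, hn⟩ := Complex.exp_eq_one_iff.1 (hg1 t)
      refine ⟨n, ?_⟩
      rw [hn]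
      have : ((n : ℂ) * (2 * Real.pi * Complex.I)).im = n * (2 * Real.pi) := by
        simp
      rw [this, mul_div_assoc, div_self (by positivity), mul_one]
    choose n hn using hint
    have hcont : Continuous fun t => ((n t : ℤ) : ℝ) := by
      simp_rw [← hn]
      exact (Complex.continuous_im.comp hg).div_const _
    have hcont' : Continuous n := (Int.isClosedEmbedding_coe_real.isInducing.continuous_iff).2 hcont
    have hc := PreconnectedSpace.constant (inferInstance : PreconnectedSpace ℝ) hcont' (x := a) (y := b)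
    have him : (g a).im = (g b).im := by
      have h2 := hn a
      have h3 := hn b
      rw [hc, ← h3] at h2
      have hpi : (2 * Real.pi) ≠ 0 := by positivity
      field_simp at h2
      exact h2
    exact Complex.ext ((hre a).trans (hre b).symm) him
  have hper : ∀ t s : ℝ, Complex.exp (L (t + 2 * Real.pi, s) - L (t, s)) = 1 := by
    intro t s
    rw [Complex.exp_sub, hexp, hexp]
    have : Circle.exp (t + 2 * Real.pi) = Circle.exp t := Circle.periodic_exp t
    rw [this]
    exact div_self (hne _ _)
  -- constant in `s`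
  have hs : L (0 + 2 * Real.pi, a) - L (0, a) = L (0 + 2 * Real.pi, b) - L (0, b) := by
    refine key (fun s => L (0 + 2 * Real.pi, s) - L (0, s)) ?_ (fun s => hper 0 s) a b
    fun_prop
  -- at time one
  have hc0 : c ≠ 0 := by
    rw [← h1 1]
    exact hne _ _
  have hone : L (0 + 2 * Real.pi, b) = L (0, b) := by
    have := key (fun t => L (t, b) - L (0, b)) (by fun_prop) (fun t => by
      rw [Complex.exp_sub, hexp, hexp, h1, h1, div_self hc0]) (0 + 2 * Real.pi) 0
    simpa [sub_eq_zero] using this
  -- at time zero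
  have hzero : L (0 + 2 * Real.pi, a) - L (0, a) = m * (2 * Real.pi * Complex.I) := by
    have hρ : ρ ≠ 0 := by
      intro h
      have := h0 1
      rw [h, zero_mul] at this
      exact hne _ _ this
    have h3 := key (fun t => L (t, a) - L (0, a) - m * (t * Complex.I)) (by fun_prop) (fun t => by
      rw [Complex.exp_sub, Complex.exp_sub, hexp, hexp, h0, h0]
      have e1 : Complex.exp (m * (t * Complex.I)) = ((Circle.exp t : Circle) : ℂ) ^ m := by
        rw [Circle.coe_exp, ← Complex.exp_int_mul]
      rw [e1]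
      have e2 : ((Circle.exp t : Circle) : ℂ) ^ m ≠ 0 := zpow_ne_zero _ (Circle.coe_ne_zero _)
      have e3 : ((Circle.exp 0 : Circle) : ℂ) = 1 := by simp
      rw [e3, one_zpow, mul_one]
      field_simp) (0 + 2 * Real.pi) 0
    simp only [sub_self, Complex.ofReal_zero, zero_mul, mul_zero] at h3
    have h4 : L (0 + 2 * Real.pi, a) - L (0, a) = m * (((0 + 2 * Real.pi : ℝ) : ℂ) * Complex.I) := by
      linear_combination h3
    rw [h4]
    push_cast
    ring
  rw [hone, sub_self] at hs
  rw [hs] at hzero
  have hpi : (2 * Real.pi * Complex.I : ℂ) ≠ 0 := Complex.two_pi_I_ne_zero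
  have := (mul_eq_zero.1 hzero.symm).resolve_right hpi
  exact_mod_cast this

end Pool.Agent.Q186.CA
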