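import Pool.Agent.Y489.GE.Fin2
import Pool.Agent.Y467.GE.MG
import Pool.Agent.Y165.GE.CG
import Pool.Agent.Y590.GE.BK
import Pool.Agent.Y812.GE.EN
import Pool.Agent.Q186.CA.Top
import Pool.Agent.Q186.CA.Corner

/-!
# Short periodic geodesics from circle actions
-/

set_option autoImplicit false

open Set Topology Matrix

namespace Pool.Agent.Q186.CA

open Pool.Agent.Y489.GE

/-- without closed geodesics of length at most `L` the polygons of length at most `L` can be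
contracted -/
theorem polC_of_no {X : Type} [MetricSpace X] [CompactSpace X] {r : ℝ} {m : X → X → ℝ → X}
    (hm : GMap X r m) {L : ℝ} (hno : ¬ ClosedGeod X L) (N : ℕ) [NeZero N] {δ : ℝ} (h0 : 0 < δ)
    (hδ : δ ≤ r) (hL : N * δ ≤ L) : PolC X N δ := by
  have hN0 : (0 : ℝ) < N := by
    have := NeZero.ne N
    positivity
  refine Pool.Agent.Y590.GE.t_BK Pool.Agent.Y812.GE.t_EN X r m hm N δ h0 hδ ?_
  intro x hx hxe he
  apply hno
  have hpos : 0 < En N x := lt_of_lt_of_le (by positivity) hxe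
  exact (Pool.Agent.Y165.GE.t_CG X r m hm N δ hδ x hx he hpos).mono hL

section

variable {X : Type} [MetricSpace X] [MulAction Circle X]

/-- the loop which goes along `c` and back along its image under `θ` -/
noncomputable def lp (c : ℝ → X) (lam : ℝ) (θ : Circle) (s : ℝ) : X :=
  if s ≤ 1 then c s else θ • c ((1 + lam - s) / lam)

/-- a polygon inscribed in the loop -/
noncomputable def loop (c : ℝ → X) (lam : ℝ) (N : ℕ) (θ : Circle) : ZMod N → X :=
  fun i => lp c lam θ ((i.val : ℝ) * (1 + lam) / N)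

variable {c : ℝ → X} {lam d : ℝ} {N : ℕ} {x₀ x₁ : X}

theorem lp_dist (hlam : 0 < lam) (h1 : c 1 = x₁) (hx₁ : ∀ θ : Circle, θ • x₁ = x₁)
    (hLip : ∀ (θ : Circle) (x y : X), dist (θ • x) (θ • y) ≤ lam * dist x y)
    (hc : ∀ s ∈ Icc (0 : ℝ) 1, ∀ t ∈ Icc (0 : ℝ) 1, dist (c s) (c t) = |s - t| * d) (hd : 0 ≤ d)
    (θ : Circle) {s t : ℝ} (h0 : 0 ≤ s) (hst : s ≤ t) (ht : t ≤ 1 + lam) :
    dist (lp c lam θ s) (lp c lam θ t) ≤ (t - s) * d := by
  have hm : ∀ u : ℝ, 1 ≤ u → u ≤ 1 + lam → (1 + lam - u) / lam ∈ Icc (0 : ℝ) 1 := by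
    intro u hu1 hu2
    exact ⟨div_nonneg (by linarith) hlam.le, by rw [div_le_one hlam]; linarith⟩
  have h2 : ∀ u v : ℝ, 1 ≤ u → u ≤ v → v ≤ 1 + lam →
      dist (θ • c ((1 + lam - u) / lam)) (θ • c ((1 + lam - v) / lam)) ≤ (v - u) * d := by
    intro u v hu huv hv
    refine (hLip _ _ _).trans ?_
    rw [hc _ (hm u hu (huv.trans hv)) _ (hm v (hu.trans huv) hv)]
    have : (1 + lam - u) / lam - (1 + lam - v) / lam = (v - u) / lam := by
      field_simp
      ring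
    rw [this, abs_of_nonneg (div_nonneg (by linarith) hlam.le)]
    refine le_of_eq ?_
    field_simp
  by_cases ht1 : t ≤ 1
  · rw [lp, lp, if_pos (hst.trans ht1), if_pos ht1, hc _ ⟨h0, hst.trans ht1⟩ _
      ⟨h0.trans hst, ht1⟩, abs_sub_comm, abs_of_nonneg (by linarith)]
  · push Not at ht1
    by_cases hs1 : s ≤ 1
    · rw [lp, lp, if_pos hs1, if_neg (not_le.2 ht1)]
      refine (dist_triangle _ (c 1) _).trans ?_
      have e1 : dist (c s) (c 1) = (1 - s) * d := by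
        rw [hc _ ⟨h0, hs1⟩ _ ⟨zero_le_one, le_rfl⟩, abs_sub_comm, abs_of_nonneg (by linarith)]
      have e2 := h2 1 t le_rfl ht1.le ht
      have e3 : (1 + lam - 1) / lam = 1 := by
        rw [add_sub_cancel_left, div_self hlam.ne']
      rw [e3, h1, hx₁, ← h1] at e2
      rw [e1]
      linarith
    · rw [lp, lp, if_neg hs1, if_neg (not_le.2 ht1)]
      exact h2 s t (by push Not at hs1; exact hs1.le) hst ht

theorem lp_zero (h0 : c 0 = x₀) (θ : Circle) : lp c lam θ 0 = x₀ := by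
  rw [lp, if_pos zero_le_one, h0]

theorem lp_one (h1 : c 1 = x₁) (θ : Circle) : lp c lam θ 1 = x₁ := by
  rw [lp, if_pos le_rfl, h1]

theorem lp_last (hlam : 0 < lam) (h0 : c 0 = x₀) (hx₀ : ∀ θ : Circle, θ • x₀ = x₀) (θ : Circle) :
    lp c lam θ (1 + lam) = x₀ := by
  rw [lp, if_neg (by linarith), sub_self, zero_div, h0, hx₀]

theorem loop_cast (hlam : 0 < lam) (hN : 0 < N) (h0 : c 0 = x₀)
    (hx₀ : ∀ θ : Circle, θ • x₀ = x₀) (θ : Circle) {n : ℕ} (hn : n ≤ N) :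
    loop c lam N θ (n : ZMod N) = lp c lam θ ((n : ℝ) * (1 + lam) / N) := by
  have hN0 : (N : ℝ) ≠ 0 := by positivity
  rcases hn.lt_or_eq with h | rfl
  · rw [loop, ZMod.val_natCast_of_lt h]
  · rw [loop, ZMod.natCast_self, ZMod.val_zero, Nat.cast_zero, zero_mul, zero_div, lp_zero h0,
      mul_comm, mul_div_assoc, div_self hN0, mul_one, lp_last hlam h0 hx₀]

theorem loop_mem (hlam : 0 < lam) (hN : 0 < N) (h0 : c 0 = x₀) (h1 : c 1 = x₁)
    (hx₀ : ∀ θ : Circle, θ • x₀ = x₀) (hx₁ : ∀ θ : Circle, θ • x₁ = x₁)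
    (hLip : ∀ (θ : Circle) (x y : X), dist (θ • x) (θ • y) ≤ lam * dist x y)
    (hc : ∀ s ∈ Icc (0 : ℝ) 1, ∀ t ∈ Icc (0 : ℝ) 1, dist (c s) (c t) = |s - t| * d) (hd : 0 ≤ d)
    (θ : Circle) : loop c lam N θ ∈ Pol X N ((1 + lam) * d / N) := by
  intro i
  have : NeZero N := ⟨by omega⟩
  have hN0 : (0 : ℝ) < N := by positivity
  have hi : i.val < N := ZMod.val_lt i
  have e2 : i + 1 = ((i.val + 1 : ℕ) : ZMod N) := by
    push_cast
    rw [ZMod.natCast_zmod_val]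
  rw [e2, loop_cast hlam hN h0 hx₀ θ (by omega)]
  have hi' : ((i.val + 1 : ℕ) : ℝ) ≤ N := by exact_mod_cast hi
  refine (lp_dist hlam h1 hx₁ hLip hc hd θ (s := (i.val : ℝ) * (1 + lam) / N)
    (t := ((i.val + 1 : ℕ) : ℝ) * (1 + lam) / N) (by positivity) ?_ ?_).trans (le_of_eq ?_)
  · push_cast
    have : 0 ≤ (1 + lam) / N := by positivity
    have e : ((i.val : ℝ) + 1) * (1 + lam) / N - (i.val : ℝ) * (1 + lam) / N = (1 + lam) / N := by
      ring
    linarith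
  · rw [div_le_iff₀ hN0]
    nlinarith
  · push_cast
    ring

theorem continuous_loop [ContinuousSMul Circle X] :
    Continuous fun θ : Circle => loop c lam N θ := by
  refine continuous_pi fun i => ?_
  by_cases h : (i.val : ℝ) * (1 + lam) / N ≤ 1
  · simp only [loop, lp, if_pos h]
    exact continuous_const
  · simp only [loop, lp, if_neg h]
    exact continuous_id.smul continuous_const

end

/-- the holonomy of a polygon -/
noncomputable def hol {X : Type} {k : ℕ} (P : X → Matrix (Fin k) (Fin k) ℂ) (N : ℕ)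
    (x : ZMod N → X) : ℂ :=
  (pr (fun n => P (x (n : ZMod N))) N).trace

theorem continuous_hol {X : Type} [TopologicalSpace X] {k : ℕ} {P : X → Matrix (Fin k) (Fin k) ℂ}
    (hP : Continuous P) (N : ℕ) : Continuous (hol P N) :=
  (continuous_pr (fun _ => hP.comp (continuous_apply _)) N).matrix_trace

theorem hol_ne_zero {X : Type} [MetricSpace X] {k : ℕ} {P : X → Matrix (Fin k) (Fin k) ℂ}
    (hP : ∀ x, IsLine (P x)) {δ : ℝ} (hδ : ∀ x y, dist x y ≤ δ → (P x * P y).trace ≠ 0) {N : ℕ}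
    {x : ZMod N → X} (hx : x ∈ Pol X N δ) : hol P N x ≠ 0 := by
  choose v hv1 hv2 using hP
  rw [hol, trace_pr_line (v := fun n => v (x (n : ZMod N))) (fun i => hv2 _) N
    (by simp) (hv1 _), Finset.prod_ne_zero_iff]
  intro i _
  refine dot_ne_zero ?_
  rw [← hv2, ← hv2]
  refine hδ _ _ ?_
  have := hx (i : ZMod N)
  push_cast
  exact this

theorem hol_const {X : Type} {k : ℕ} {P : X → Matrix (Fin k) (Fin k) ℂ}
    (hP : ∀ x, IsLine (P x)) (N : ℕ) (y : X) : hol P N (fun _ => y) = 1 := by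
  rw [hol, pr_const (hP y).idem, (hP y).trace_eq]

/-- near the corner the holonomy is close to the holonomy of the polygon with the additional
vertex `x₁` -/
theorem corner_est {X : Type} [MulAction Circle X] {k : ℕ} {P : X → Matrix (Fin k) (Fin k) ℂ}
    (hP : ∀ x, IsLine (P x)) {f g h : ℕ → X} {θ : Circle} {W W' : Matrix (Fin k) (Fin k) ℂ}
    (hW : W' * W = 1) (hWP : ∀ x, P (θ • x) = W * P x * W') {i J : ℕ} (hf : ∀ n ≤ i, f n = g n)
    (hf' : ∀ j ≤ J, f (i + 1 + j) = θ • h j) {x₀ x₁ : X} (hg0 : g 0 = x₀) (hhJ : h J = x₀)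
    (hx₀ : θ • x₀ = x₀) (hx₁ : θ • x₁ = x₁) {a b : ℂ} (hb : b ≠ 0) (ha : W * P x₁ = a • P x₁)
    (hb' : W * P x₀ = b • P x₀)
    (h1 : (1 / 2 : ℝ) < ‖(P (g i) * P x₁).trace‖) (h2 : (1 / 2 : ℝ) < ‖(P x₁ * P (θ • h 0)).trace‖)
    (hne : (pr (fun n => P (f n)) (i + 1 + J)).trace ≠ 0) :
    ‖(pr (fun n => P (f n)) (i + 1 + J)).trace - a * b⁻¹ *
      (pr (fun n => P (g n)) i * (P x₁ * pr (fun n => P (h n)) J)).trace‖ <
    ‖a * b⁻¹ * (pr (fun n => P (g n)) i * (P x₁ * pr (fun n => P (h n)) J)).trace‖ := by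
  have hsplit : pr (fun n => P (f n)) (i + 1 + J) =
      pr (fun n => P (g n)) i * (W * pr (fun n => P (h n)) J * W') := by
    rw [pr_split (h := fun n => P (h n)) hW (fun j hj => by rw [hf' j hj, hWP]),
      pr_congr (g := fun n => P (g n)) fun n hn => by rw [hf n hn]]
  have hidem : ∀ x, P x * P x = P x := fun x => (hP x).idem
  -- the action on the two fibres
  have hP1W : P x₁ * W = a • P x₁ := by
    calc P x₁ * W = P (θ • x₁) * W := by rw [hx₁]
      _ = W * P x₁ := by rw [hWP, Matrix.mul_assoc (W * P x₁), hW, Matrix.mul_one]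
      _ = _ := ha
  have e3 : W' * P x₀ = b⁻¹ • P x₀ := by
    have : P x₀ = b • (W' * P x₀) := by
      calc P x₀ = W' * W * P x₀ := by rw [hW, Matrix.one_mul]
        _ = W' * (W * P x₀) := by rw [Matrix.mul_assoc]
        _ = _ := by rw [hb', Matrix.mul_smul]
    rw [this, smul_smul, inv_mul_cancel₀ hb, one_smul, ← this]
  have e4 : P x₀ * W' = b⁻¹ • P x₀ := by
    rw [← e3]
    calc P x₀ * W' = W' * W * P x₀ * W' := by rw [hW, Matrix.one_mul]
      _ = W' * (W * P x₀ * W') := by simp only [Matrix.mul_assoc]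
      _ = _ := by rw [← hWP, hx₀]
  set A := pr (fun n => P (g n)) i with hA
  set C := pr (fun n => P (h n)) J with hC
  have e5 : C * W' = b⁻¹ • C := by
    have e6 : C * P x₀ = C := by
      rw [← hhJ]
      exact pr_absorb (f := fun n => P (h n)) (fun n => hidem _) J
    calc C * W' = C * P x₀ * W' := by rw [e6]
      _ = b⁻¹ • (C * P x₀) := by rw [Matrix.mul_assoc, e4, Matrix.mul_smul]
      _ = _ := by rw [e6]
  have hz0 : (pr (fun n => P (f n)) (i + 1 + J)).trace = b⁻¹ * (A * (W * C)).trace := by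
    rw [hsplit, Matrix.mul_assoc W C W', e5, Matrix.mul_smul, Matrix.mul_smul, trace_smul,
      smul_eq_mul]
  have hz1 : a * b⁻¹ * (A * (P x₁ * C)).trace = b⁻¹ * (A * (P x₁ * W * C)).trace := by
    rw [hP1W, Matrix.smul_mul, Matrix.mul_smul, trace_smul, smul_eq_mul]
    ring
  choose v hv1 hv2 using hP
  have hAv : A = (∏ n ∈ Finset.range i, (star (v (g n)) ⬝ᵥ v (g (n + 1)))) •
      vecMulVec (v (g 0)) (star (v (g i))) :=
    pr_line (f := fun n => P (g n)) (v := fun n => v (g n)) (fun n => hv2 _) i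
  have hCv : C = (∏ n ∈ Finset.range J, (star (v (h n)) ⬝ᵥ v (h (n + 1)))) •
      vecMulVec (v (h 0)) (star (v (h J))) :=
    pr_line (f := fun n => P (h n)) (v := fun n => v (h n)) (fun n => hv2 _) J
  set α := ∏ n ∈ Finset.range i, (star (v (g n)) ⬝ᵥ v (g (n + 1)))
  set γ := ∏ n ∈ Finset.range J, (star (v (h n)) ⬝ᵥ v (h (n + 1)))
  have htr : ∀ Z : Matrix (Fin k) (Fin k) ℂ, (A * (Z * C)).trace =
      α * γ * (star (v (g i)) ⬝ᵥ (Z *ᵥ v (h 0))) := by
    intro Z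
    rw [hAv, hCv, trace_sandwich, hhJ, hg0, hv1, mul_one]
  -- the vector `W v`
  set w := v (θ • h 0) with hw
  set κ := star w ⬝ᵥ (W *ᵥ v (h 0)) with hκ
  have hWv : W *ᵥ v (h 0) = κ • w := by
    have h3 : P (h 0) *ᵥ v (h 0) = v (h 0) := by
      rw [hv2, vecMulVec_mulVec, hv1, MulOpposite.op_one, one_smul]
    have h4 : P (θ • h 0) *ᵥ (W *ᵥ v (h 0)) = W *ᵥ v (h 0) := by
      rw [hWP, mulVec_mulVec, Matrix.mul_assoc (W * P (h 0)), hW, Matrix.mul_one,
        ← mulVec_mulVec, h3]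
    rw [← h4, hv2 (θ • h 0), vecMulVec_mulVec, ← hw, ← hκ, op_smul_eq_smul]
  have hZ0 : (pr (fun n => P (f n)) (i + 1 + J)).trace =
      b⁻¹ * (α * γ * κ) * (star (v (g i)) ⬝ᵥ w) := by
    rw [hz0, htr, hWv, dotProduct_smul, smul_eq_mul]
    ring
  have hZ1 : a * b⁻¹ * (A * (P x₁ * C)).trace =
      b⁻¹ * (α * γ * κ) * ((star (v (g i)) ⬝ᵥ v x₁) * (star (v x₁) ⬝ᵥ w)) := by
    rw [hz1, htr, ← mulVec_mulVec, hWv, mulVec_smul, dotProduct_smul, hv2 x₁, vecMulVec_mulVec,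
      op_smul_eq_smul, dotProduct_smul]
    simp only [smul_eq_mul]
    ring
  have h6 : ‖(star (v (g i)) ⬝ᵥ w) - (star (v (g i)) ⬝ᵥ v x₁) * (star (v x₁) ⬝ᵥ w)‖ <
      ‖(star (v (g i)) ⬝ᵥ v x₁) * (star (v x₁) ⬝ᵥ w)‖ := by
    refine corner (hv1 _) (hv1 _) (hv1 _) ?_ ?_
    · rw [hv2 (g i), hv2 x₁, trace_two, Complex.norm_real, Real.norm_of_nonneg (sq_nonneg _)] at h1
      exact h1
    · rw [hv2 x₁, hv2 (θ • h 0), trace_two, Complex.norm_real,
        Real.norm_of_nonneg (sq_nonneg _)] at h2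
      exact h2
  have h7 : b⁻¹ * (α * γ * κ) ≠ 0 := by
    intro h8
    apply hne
    rw [hZ0, h8, zero_mul]
  rw [hZ1, hZ0, ← mul_sub, norm_mul _ (star (v (g i)) ⬝ᵥ w - _),
    norm_mul _ ((star (v (g i)) ⬝ᵥ v x₁) * (star (v x₁) ⬝ᵥ w))]
  exact mul_lt_mul_of_pos_left h6 (norm_pos_iff.2 h7)

end Pool.Agent.Q186.CA
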